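import Pool.Agent.MP_920d98_co.Cx.Grid

set_option autoImplicit false

namespace Pool.Agent.MP_920d98_co.Cx

open Set Topology Filter Complex

/-- piecewise linear interpolation of a sequence -/
noncomputable def pl (f : ℕ → ℕ) : ℕ → ℝ → ℝ
  | 0, _ => f 0
  | L + 1, t => pl f L t + max 0 (min (t - L) 1) * ((f (L + 1) : ℝ) - f L)

theorem pl_cont (f : ℕ → ℕ) (L : ℕ) : Continuous (pl f L) := by
  induction L with
  | zero => exact continuous_const
  | succ L ih =>
    show Continuous fun t => pl f L t + max 0 (min (t - L) 1) * ((f (L + 1) : ℝ) - f L)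
    fun_prop

theorem pl_ge (f : ℕ → ℕ) (L : ℕ) {t : ℝ} (h : L ≤ t) : pl f L t = f L := by
  induction L with
  | zero => rfl
  | succ L ih =>
    push_cast at h
    rw [pl, ih (by linarith), min_eq_right (by linarith), max_eq_right zero_le_one]
    ring

theorem pl_eq (f : ℕ → ℕ) {L m : ℕ} (h : m < L) {s : ℝ} (h0 : 0 ≤ s) (h1 : s ≤ 1) :
    pl f L (m + s) = f m + s * ((f (m + 1) : ℝ) - f m) := by
  induction L, h using Nat.le_induction with
  | base =>
    rw [pl, pl_ge f m (t := m + s) (by linarith), add_sub_cancel_left, min_eq_left h1,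
      max_eq_right h0]
  | succ L hL ih =>
    have : (m : ℝ) + 1 ≤ L := by exact_mod_cast hL
    rw [pl, ih, max_eq_left ((min_le_left _ _).trans (by linarith)), zero_mul, add_zero]

theorem K_seg {a b : ℕ} (ha : 1 ≤ a ∧ a ≤ 31) (hb : 1 ≤ b ∧ b ≤ 31)
    (h : b = a ∨ b = a + 1 ∨ a = b + 1) {s : ℝ} (h0 : 0 < s) (h1 : s < 1) :
    K (a + s * ((b : ℝ) - a)) = a + b := by
  have a1 : (1 : ℝ) ≤ a := by exact_mod_cast ha.1
  have a2 : (a : ℝ) ≤ 31 := by exact_mod_cast ha.2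
  have b1 : (1 : ℝ) ≤ b := by exact_mod_cast hb.1
  have b2 : (b : ℝ) ≤ 31 := by exact_mod_cast hb.2
  rcases h with rfl | rfl | rfl
  · rw [sub_self, mul_zero, add_zero, K_nat ha.1 ha.2, two_mul]
  · rw [K_gap (m := a)] <;> push_cast at * <;> first | omega | linarith
  · rw [K_gap (m := b)] <;> push_cast at * <;> first | omega | linarith

theorem seg_of {a b : ℕ} (ha : 1 ≤ a ∧ a ≤ 31) (hb : 1 ≤ b ∧ b ≤ 31)
    (h : b = a + 1 ∨ a = b + 1) {x : ℝ} (hx : K x = a + b) :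
    ∃ s : ℝ, 0 ≤ s ∧ s < 1 ∧ x = a + s * ((b : ℝ) - a) := by
  rcases h with rfl | rfl
  · have := K_odd (x := x) (m := a) (by omega) ha.1 hb.2
    exact ⟨x - a, by linarith, by linarith, by push_cast; ring⟩
  · have := K_odd (x := x) (m := b) (by omega) hb.1 ha.2
    exact ⟨b + 1 - x, by linarith, by linarith, by push_cast; ring⟩

theorem exists_curve (L : ℕ) (hL : 0 < L) (f g : ℕ → ℕ) (h0 : f L = f 0 ∧ g L = g 0)
    (hb : ∀ r < L + 1, (1 ≤ f r ∧ f r ≤ 31) ∧ 1 ≤ g r ∧ g r ≤ 31)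
    (hs : ∀ r < L, (g (r + 1) = g r ∧ (f (r + 1) = f r + 1 ∨ f r = f (r + 1) + 1)) ∨
      (f (r + 1) = f r ∧ (g (r + 1) = g r + 1 ∨ g r = g (r + 1) + 1)))
    (O : ℕ → ℕ → Prop) (τ : ℕ → ℕ → ℕ)
    (h1 : ∀ r < L, ∀ e < 2, O (f r + f (r + e)) (g r + g (r + e)) ∧
      τ (f r + f (r + e)) (g r + g (r + e)) = 2 * r + e)
    (h2 : ∀ a < 64, ∀ b < 64, O a b → τ a b / 2 < L ∧
      a = f (τ a b / 2) + f (τ a b / 2 + τ a b % 2) ∧
      b = g (τ a b / 2) + g (τ a b / 2 + τ a b % 2)) :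
    ∃ γ : Circle → ℂ, (Continuous γ ∧ Function.Injective γ) ∧ range γ = R O := by
  have hL' : (0 : ℝ) < L := by exact_mod_cast hL
  have : Fact ((0 : ℝ) < L) := ⟨hL'⟩
  let Γ : ℝ → ℂ := fun t => ⟨pl f L t, pl g L t⟩
  have hc : Continuous Γ :=
    equivRealProdCLM.symm.continuous.comp ((pl_cont f L).prodMk (pl_cont g L))
  have hΓ : ∀ r < L, ∀ s : ℝ, 0 ≤ s → s ≤ 1 → Γ (r + s) =
      ⟨f r + s * ((f (r + 1) : ℝ) - f r), g r + s * ((g (r + 1) : ℝ) - g r)⟩ :=
    fun r hr s a b => Complex.ext (pl_eq f hr a b) (pl_eq g hr a b)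
  have key : ∀ t ∈ Ico (0 : ℝ) (0 + L), ∃ r < L, ∃ s : ℝ, 0 ≤ s ∧ s < 1 ∧ t = r + s ∧ ∃ e < 2,
      K (Γ t).re = f r + f (r + e) ∧ K (Γ t).im = g r + g (r + e) := by
    intro t ht
    have hr : ⌊t⌋₊ < L := (Nat.floor_lt ht.1).2 (by linarith [ht.2])
    have a := Nat.floor_le ht.1
    have b := Nat.lt_floor_add_one t
    refine ⟨_, hr, t - ⌊t⌋₊, by linarith, by linarith, by ring, ?_⟩
    have e := hΓ _ hr (t - ⌊t⌋₊) (by linarith) (by linarith)
    rw [add_sub_cancel] at e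
    have b1 := hb ⌊t⌋₊ (by omega)
    have b2 := hb (⌊t⌋₊ + 1) (by omega)
    have s := hs _ hr
    rw [e]
    rcases a.eq_or_lt with a | a
    · refine ⟨0, two_pos, ?_⟩
      rw [sub_eq_zero.2 a.symm]
      exact ⟨by simpa [two_mul] using K_nat b1.1.1 b1.1.2,
        by simpa [two_mul] using K_nat b1.2.1 b1.2.2⟩
    · exact ⟨1, one_lt_two, K_seg b1.1 b2.1 (by omega) (by linarith) (by linarith),
        K_seg b1.2 b2.2 (by omega) (by linarith) (by linarith)⟩
  have inj : InjOn Γ (Ico 0 (0 + L)) := by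
    intro t ht t' ht' h
    obtain ⟨r, hr, s, s0, s1, rfl, e, he, a, b⟩ := key t ht
    obtain ⟨r', hr', s', s0', s1', rfl, e', he', a', b'⟩ := key t' ht'
    have c := (h1 r hr e he).2
    rw [← a, ← b, h, a', b', (h1 r' hr' e' he').2] at c
    obtain rfl : r = r' := by omega
    rw [hΓ r hr s s0 s1.le, hΓ r hr s' s0' s1'.le, Complex.mk.injEq] at h
    rcases hs r hr with ⟨-, u | u⟩ | ⟨-, u | u⟩ <;> rw [u] at h <;> push_cast at h <;>
      linarith [h.1, h.2]
  let H := (AddCircle.homeomorphCircle hL'.ne').symm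
  refine ⟨AddCircle.liftIco (L : ℝ) 0 Γ ∘ H, ⟨(AddCircle.liftIco_continuous ?_
    hc.continuousOn).comp H.continuous, Function.Injective.comp ?_ H.injective⟩, ?_⟩
  · have := hΓ 0 hL 0 le_rfl zero_le_one
    rw [Nat.cast_zero, add_zero] at this
    rw [this, zero_add]
    exact Complex.ext (by simp [Γ, pl_ge, h0.1]) (by simp [Γ, pl_ge, h0.2])
  · exact (injOn_iff_injective.1 inj).comp (Equiv.injective _)
  · rw [H.surjective.range_comp, AddCircle.liftIco, (Equiv.surjective _).range_comp,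
      range_domRestrict]
    ext z
    constructor
    · rintro ⟨t, ht, rfl⟩
      obtain ⟨r, hr, s, -, -, -, e, he, a, b⟩ := key t ht
      rw [R, mem_ofPred_eq, a, b]
      exact (h1 r hr e he).1
    · intro hz
      obtain ⟨hr, a, b⟩ := h2 _ (K_top _) _ (K_top _) hz
      generalize τ (K z.re) (K z.im) = u at hr a b
      have fin : ∀ s : ℝ, 0 ≤ s → s < 1 →
          z.re = f (u / 2) + s * ((f (u / 2 + 1) : ℝ) - f (u / 2)) →
          z.im = g (u / 2) + s * ((g (u / 2 + 1) : ℝ) - g (u / 2)) → z ∈ Γ '' Ico 0 (0 + L) :=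
        fun s s0 s1 x y => by
          have : ((u / 2 : ℕ) : ℝ) + 1 ≤ L := by exact_mod_cast hr
          refine ⟨(u / 2 : ℕ) + s, ⟨by positivity, by linarith⟩, ?_⟩
          rw [hΓ _ hr s s0 s1.le]
          exact Complex.ext x.symm y.symm
      have b1 := hb (u / 2) (by omega)
      have b2 := hb (u / 2 + 1) (by omega)
      rcases Nat.mod_two_eq_zero_or_one u with e | e <;> rw [e] at a b
      · rw [add_zero, ← two_mul] at a b
        exact fin 0 le_rfl one_pos (by simpa using K_even a) (by simpa using K_even b)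
      · rcases hs _ hr with ⟨v, w⟩ | ⟨v, w⟩
        · obtain ⟨s, s0, s1, x⟩ := seg_of b1.1 b2.1 w a
          rw [v, ← two_mul] at b
          exact fin s s0 s1 x (by simpa [v] using K_even b)
        · obtain ⟨s, s0, s1, x⟩ := seg_of b1.2 b2.2 w b
          rw [v, ← two_mul] at a
          exact fin s s0 s1 (by simpa [v] using K_even a) x

end Pool.Agent.MP_920d98_co.Cx
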