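import Mathlib

set_option autoImplicit false

namespace Pool.Agent.MP_920d98_co.Cx

open Set Topology Filter Complex

/-- clamp to the interval of the drawing -/
noncomputable def cl (x : ℝ) : ℝ := max (1 / 2) (min x (63 / 2))

/-- index of the cell of the line containing a point: even for integers, odd for the gaps -/
noncomputable def K (x : ℝ) : ℕ := ⌊cl x⌋₊ + ⌈cl x⌉₊

theorem cl_ge (x : ℝ) : 1 / 2 ≤ cl x := le_max_left _ _

theorem cl_le (x : ℝ) : cl x ≤ 63 / 2 := max_le (by norm_num) (min_le_right _ _)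

theorem cl_of {x : ℝ} (h1 : 1 / 2 ≤ x) (h2 : x ≤ 63 / 2) : cl x = x := by
  rw [cl, min_eq_left h2, max_eq_right h1]

theorem cl_eq {x : ℝ} (h1 : 1 / 2 < cl x) (h2 : cl x < 63 / 2) : cl x = x := by
  unfold cl at *
  rcases le_total x (63 / 2) with h | h
  · rw [min_eq_left h] at *
    exact max_eq_right ((lt_max_iff.1 h1).resolve_left (lt_irrefl _)).le
  · rw [min_eq_right h] at h2
    exact absurd (max_lt_iff.1 h2).2 (lt_irrefl _)

theorem cl_cont : Continuous cl := by unfold cl; fun_prop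

theorem K_aux (x : ℝ) : ⌊cl x⌋₊ ≤ ⌈cl x⌉₊ ∧ ⌈cl x⌉₊ ≤ ⌊cl x⌋₊ + 1 :=
  ⟨Nat.floor_le_ceil _, Nat.ceil_le_floor_add_one _⟩

theorem K_le (x : ℝ) (m : ℕ) : K x ≤ 2 * m ↔ cl x ≤ m := by
  rw [← Nat.ceil_le, K]
  have := K_aux x
  omega

theorem K_lt (x : ℝ) (m : ℕ) : K x < 2 * m ↔ cl x < m := by
  rw [← Nat.floor_lt (by linarith [cl_ge x]), K]
  have := K_aux x
  omega

theorem K_gt (x : ℝ) (m : ℕ) : 2 * m < K x ↔ m < cl x := by
  rw [← not_le, K_le, not_le]

theorem K_pos (x : ℝ) : 0 < K x := (K_gt x 0).2 (by have := cl_ge x; push_cast; linarith)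

theorem K_top (x : ℝ) : K x < 64 := (K_lt x 32).2 (by have := cl_le x; push_cast; linarith)

theorem K_mono : Monotone K := fun _ _ h =>
  have h' := max_le_max (le_refl (1 / 2 : ℝ)) (min_le_min h (le_refl (63 / 2 : ℝ)))
  add_le_add (Nat.floor_mono h') (Nat.ceil_mono h')

theorem K_even {x : ℝ} {m : ℕ} (h : K x = 2 * m) : x = m := by
  have h1 : cl x = m := le_antisymm ((K_le x m).1 h.le) (not_lt.1 fun a => ((K_lt x m).2 a).ne h)
  have h2 : (1 : ℝ) ≤ m := by have := K_pos x; exact_mod_cast (by omega : 1 ≤ m)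
  have h3 : (m : ℝ) ≤ 31 := by have := K_top x; exact_mod_cast (by omega : m ≤ 31)
  rw [← h1, cl_eq (by linarith) (by linarith)]

theorem K_odd {x : ℝ} {m : ℕ} (h : K x = 2 * m + 1) (h1 : 1 ≤ m) (h2 : m + 1 ≤ 31) :
    m < x ∧ x < m + 1 := by
  have a := (K_gt x m).1 (by omega)
  have b := (K_lt x (m + 1)).1 (by omega)
  have h2 : (1 : ℝ) ≤ m := by exact_mod_cast h1
  have h3 : (m : ℝ) + 1 ≤ 31 := by exact_mod_cast ‹m + 1 ≤ 31›
  push_cast at b
  have c := cl_eq (x := x) (by linarith) (by linarith)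
  exact ⟨c ▸ a, c ▸ b⟩

theorem K_nat {m : ℕ} (h1 : 1 ≤ m) (h2 : m ≤ 31) : K m = 2 * m := by
  have h3 : (1 : ℝ) ≤ m := by exact_mod_cast h1
  have h4 : (m : ℝ) ≤ 31 := by exact_mod_cast h2
  have h := cl_of (x := m) (by linarith) (by linarith)
  exact le_antisymm ((K_le _ m).2 h.le) (not_lt.1 fun a => ((K_lt _ m).1 a).ne h)

theorem K_gap {x : ℝ} {m : ℕ} (h1 : 1 / 2 ≤ x) (h2 : x ≤ 63 / 2) (a : m < x) (b : x < m + 1) :
    K x = 2 * m + 1 := by
  have a' := (K_gt x m).2 (by rwa [cl_of h1 h2])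
  have b' := (K_lt x (m + 1)).2 (by rw [cl_of h1 h2]; push_cast; exact b)
  omega

theorem K_half {a : ℕ} (h1 : 0 < a) (h2 : a < 64) : K (a / 2) = a := by
  obtain ⟨m, rfl | rfl⟩ := Nat.even_or_odd' a
  · rw [show ((2 * m : ℕ) : ℝ) / 2 = m by push_cast; ring]
    exact K_nat (by omega) (by omega)
  · have h4 : (m : ℝ) ≤ 31 := by exact_mod_cast (by omega : m ≤ 31)
    have h5 : (0 : ℝ) ≤ m := m.cast_nonneg
    refine K_gap ?_ ?_ ?_ ?_ <;> push_cast <;> linarith

/-- `i` is the index of a gap next to the cell `a` -/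
def Nx (a i : ℕ) : Prop := i = a / 2 ∨ i = (a - 1) / 2

theorem K_near (x : ℝ) : ∀ᶠ y in 𝓝 x, Nx (K x) (K y / 2) := by
  have p := K_pos x
  have a := (K_lt x (K x / 2 + 1)).1 (by omega)
  have b := (K_gt x ((K x - 1) / 2)).1 (by omega)
  filter_upwards [cl_cont.continuousAt.eventually_lt continuousAt_const a,
    continuousAt_const.eventually_lt cl_cont.continuousAt b] with y a b
  have a' := (K_lt y _).2 a
  have b' := (K_gt y _).2 b
  unfold Nx
  omega

theorem K_clos {x : ℝ} {i : ℕ} (h : Nx (K x) i) : x ∈ closure {y | K y = 2 * i + 1} := by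
  have p := K_pos x
  have q := K_top x
  obtain ⟨m, e | e⟩ := Nat.even_or_odd' (K x)
  · have e' := K_even e
    have h2 : (1 : ℝ) ≤ m := by exact_mod_cast (by omega : 1 ≤ m)
    have h3 : (m : ℝ) ≤ 31 := by exact_mod_cast (by omega : m ≤ 31)
    rcases h with h | h
    · obtain rfl : i = m := by omega
      refine closure_mono (s := Ioo (i : ℝ) (i + 1 / 2)) (fun y hy => ?_) ?_
      · exact K_gap (by linarith [hy.1]) (by linarith [hy.2]) hy.1 (by linarith [hy.2])
      · rw [closure_Ioo (by linarith), e']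
        exact ⟨le_rfl, by linarith⟩
    · obtain rfl : m = i + 1 := by omega
      push_cast at h2 h3 e'
      refine closure_mono (s := Ioo ((i : ℝ) + 1 / 2) (i + 1)) (fun y hy => ?_) ?_
      · exact K_gap (by linarith [hy.1]) (by linarith [hy.2]) (by linarith [hy.1]) hy.2
      · rw [closure_Ioo (by linarith), e']
        exact ⟨by linarith, le_rfl⟩
  · refine subset_closure ?_
    unfold Nx at h
    show K x = _
    omega

/-- the union of the occupied cells -/
def R (O : ℕ → ℕ → Prop) : Set ℂ := {z | O (K z.re) (K z.im)}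

/-- an open square of the grid -/
def Sq (i j : ℕ) : Set ℂ := {y | K y = 2 * i + 1} ×ℂ {y | K y = 2 * j + 1}

/-- the point in the middle of a cell -/
noncomputable def pt (a b : ℕ) : ℂ := ⟨a / 2, b / 2⟩

theorem Sq_pre (i j : ℕ) : IsPreconnected (Sq i j) := by
  have h : ∀ k, Convex ℝ {y | K y = k} := fun k =>
    (ordConnected_singleton.preimage_mono K_mono).convex
  exact (((h _).linear_preimage reLm).inter ((h _).linear_preimage imLm)).isPreconnected

theorem Sq_clos {z : ℂ} {i j : ℕ} (h1 : Nx (K z.re) i) (h2 : Nx (K z.im) j) :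
    z ∈ closure (Sq i j) := by
  rw [Sq, closure_reProdIm]
  exact ⟨K_clos h1, K_clos h2⟩

theorem near (z : ℂ) : ∀ᶠ w in 𝓝 z, Nx (K z.re) (K w.re / 2) ∧ Nx (K z.im) (K w.im / 2) :=
  (continuous_re.continuousAt.eventually (K_near z.re)).and
    (continuous_im.continuousAt.eventually (K_near z.im))

variable {O : ℕ → ℕ → Prop}

/-- a labelling of the squares that does not change across free cells -/
def Lab (O : ℕ → ℕ → Prop) (φ : ℕ → ℕ → ℕ) : Prop :=
  ∀ a < 64, ∀ b < 64, ¬O a b → φ ((a - 1) / 2) (b / 2) = φ (a / 2) (b / 2) ∧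
    φ (a / 2) ((b - 1) / 2) = φ (a / 2) (b / 2) ∧ φ ((a - 1) / 2) ((b - 1) / 2) = φ (a / 2) (b / 2)

theorem Lab.eq {φ : ℕ → ℕ → ℕ} (h : Lab O φ) {z w : ℂ} (hw : w ∈ connectedComponentIn (R O)ᶜ z) :
    φ (K w.re / 2) (K w.im / 2) = φ (K z.re / 2) (K z.im / 2) := by
  refine isPreconnected_connectedComponentIn.constant
    (f := fun w : ℂ => φ (K w.re / 2) (K w.im / 2)) (fun u hu => ?_) hw
    (mem_connectedComponentIn (connectedComponentIn_nonempty_iff.1 ⟨w, hw⟩))
  obtain ⟨a, b, c⟩ := h _ (K_top _) _ (K_top _) (connectedComponentIn_subset _ _ hu)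
  refine (continuousAt_const.congr (f := fun _ => φ (K u.re / 2) (K u.im / 2)) ?_).continuousWithinAt
  filter_upwards [near u] with v hv
  rcases hv with ⟨e | e, e' | e'⟩ <;> rw [e, e'] <;> simp only [a, b, c]

/-- the component of the square `(i, j)` -/
def Cp (O : ℕ → ℕ → Prop) (i j : ℕ) : Set ℂ :=
  connectedComponentIn (R O)ᶜ (pt (2 * i + 1) (2 * j + 1))

theorem pt_Sq {i j : ℕ} (hi : i < 32) (hj : j < 32) : pt (2 * i + 1) (2 * j + 1) ∈ Sq i j :=
  ⟨K_half (by omega) (by omega), K_half (by omega) (by omega)⟩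

theorem Sq_free {i j : ℕ} (h : ¬O (2 * i + 1) (2 * j + 1)) : Sq i j ⊆ (R O)ᶜ := fun z hz a => by
  rw [R, mem_ofPred_eq, hz.1, hz.2] at a
  exact h a

theorem Sq_Cp {i j : ℕ} (hi : i < 32) (hj : j < 32) (h : ¬O (2 * i + 1) (2 * j + 1)) :
    Sq i j ⊆ Cp O i j := (Sq_pre i j).subset_connectedComponentIn (pt_Sq hi hj) (Sq_free h)

theorem Nx.lt {x : ℝ} {i : ℕ} (h : Nx (K x) i) : i < 32 := by
  have := K_top x
  unfold Nx at h
  omega

theorem cc_eq {z : ℂ} {i j : ℕ} (hz : z ∉ R O) (h1 : Nx (K z.re) i) (h2 : Nx (K z.im) j)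
    (h : ¬O (2 * i + 1) (2 * j + 1)) : connectedComponentIn (R O)ᶜ z = Cp O i j :=
  connectedComponentIn_eq ((((Sq_pre i j).subset_closure (subset_insert z _)
    (insert_subset (Sq_clos h1 h2) subset_closure)).subset_connectedComponentIn (mem_insert _ _)
      (insert_subset hz (Sq_free h))) (Or.inr (pt_Sq h1.lt h2.lt)))

end Pool.Agent.MP_920d98_co.Cx
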