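import Pool.Agent.MP_920d98_co.Cx.Data

set_option autoImplicit false

namespace Pool.Agent.MP_920d98_co.Cx

open Set Topology Filter Complex

theorem pt_K {a b : ℕ} (ha : 0 < a ∧ a < 64) (hb : 0 < b ∧ b < 64) :
    K (pt a b).re = a ∧ K (pt a b).im = b := ⟨K_half ha.1 ha.2, K_half hb.1 hb.2⟩

theorem pt_mem {O : ℕ → ℕ → Prop} {a b : ℕ} (ha : 0 < a ∧ a < 64) (hb : 0 < b ∧ b < 64) :
    pt a b ∈ R O ↔ O a b := by
  rw [R, mem_ofPred_eq, (pt_K ha hb).1, (pt_K ha hb).2]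

/-- the crossing point number `t` -/
noncomputable def P (t : ℕ) : ℂ := pt (2 * pX t) (2 * pY t)

theorem P_K {t : ℕ} (ht : t < 100) (h : t / 10 ≠ t % 10) :
    K (P t).re = 2 * pX t ∧ K (P t).im = 2 * pY t := by
  have := (c_pt t ht h).2.2
  exact pt_K (by omega) (by omega)

theorem eq_P {z : ℂ} {t : ℕ} (h : K z.re = 2 * pX t ∧ K z.im = 2 * pY t) : z = P t :=
  Complex.ext (by rw [K_even h.1]; simp [P, pt]) (by rw [K_even h.2]; simp [P, pt])

theorem P_inj {t u : ℕ} (ht : t < 100) (h : t / 10 ≠ t % 10) (hu : u < 100)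
    (h' : u / 10 ≠ u % 10) (e : P t = P u) : t = u := by
  have a := P_K ht h
  have b := P_K hu h'
  have c := c_inj t ht u hu
  rw [e] at a
  omega

theorem P_mem {t : ℕ} (ht : t < 100) (h : t / 10 ≠ t % 10) :
    P t ∈ R (mem (t / 10)) ∧ P t ∈ R (mem (t % 10)) := by
  simp only [R, mem_ofPred_eq, (P_K ht h).1, (P_K ht h).2]
  exact ⟨(c_pt t ht h).1, (c_pt t ht h).2.1⟩

theorem two {i j : ℕ} (hi : i < 10) (hj : j < 10) (h : i ≠ j) :
    R (mem i) ∩ R (mem j) = {P (10 * i + j), P (10 * j + i)} := by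
  refine Subset.antisymm (fun z hz => ?_) ?_
  · have c := c_two _ (K_top z.re) _ (K_top z.im)
    obtain ⟨a | a, b | b⟩ := hz
    · exact absurd (a.symm.trans b) h
    · rw [a, b] at c
      exact (c hj).imp eq_P eq_P
    · rw [a, b] at c
      exact (c hi).symm.imp eq_P eq_P
    · exact absurd (a.symm.trans b) h
  · have a := P_mem (t := 10 * i + j) (by omega) (by omega)
    have b := P_mem (t := 10 * j + i) (by omega) (by omega)
    rw [show (10 * i + j) / 10 = i by omega, show (10 * i + j) % 10 = j by omega] at a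
    rw [show (10 * j + i) / 10 = j by omega, show (10 * j + i) % 10 = i by omega] at b
    exact pair_subset a b.symm

theorem tree (d : ℕ) : ∀ i < 32, ∀ j < 32, dep i j < d →
    Cp occ i j = Cp occ (rX (lab i j)) (rY (lab i j)) := by
  induction d with
  | zero => exact fun _ _ _ _ h => absurd h (Nat.not_lt_zero _)
  | succ d ih =>
    intro i hi j hj h
    rcases c_tree i hi j hj with ⟨a, b⟩ | ⟨a, b, c, e, f, g⟩
    · rw [← a, ← b]
    · have u : 0 < i + pI i j + 1 ∧ i + pI i j + 1 < 64 := by omega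
      have v : 0 < j + pJ i j + 1 ∧ j + pJ i j + 1 < 64 := by omega
      have w := pt_K u v
      rw [← e, ← ih _ b _ c (by omega), ← cc_eq (mt (pt_mem u v).1 f) ?_ ?_ (c_free i hi j hj).1,
        cc_eq (mt (pt_mem u v).1 f) ?_ ?_ (c_free _ b _ c).1] <;> unfold Nx <;> omega

theorem face {x : ℂ} {i j : ℕ} (h1 : Nx (K x.re) i) (h2 : Nx (K x.im) j) :
    Cp occ i j = Cp occ (rX (lab i j)) (rY (lab i j)) :=
  tree _ i h1.lt j h2.lt (Nat.lt_succ_self _)

theorem clos {x : ℂ} (hx : x ∉ R occ) :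
    closure (connectedComponentIn (R occ)ᶜ x) ∩ P '' {t | t < 100 ∧ t / 10 ≠ t % 10} =
      P '' ↑((Finset.range 100).filter (touch (lab (K x.re / 2) (K x.im / 2)))) := by
  ext z
  simp only [mem_inter_iff, mem_image, mem_ofPred_eq, Finset.coe_filter, Finset.mem_range]
  constructor
  · rintro ⟨hz, t, ⟨ht, h⟩, rfl⟩
    obtain ⟨w, hw, a, b⟩ := ((mem_closure_iff_frequently.1 hz).and_eventually (near _)).exists
    refine ⟨t, ⟨ht, h, ?_⟩, rfl⟩
    rw [← c_lab.eq hw]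
    rw [(P_K ht h).1] at a
    rw [(P_K ht h).2] at b
    have a' : K w.re / 2 = pX t ∨ K w.re / 2 = pX t - 1 := by unfold Nx at a; omega
    have b' : K w.im / 2 = pY t ∨ K w.im / 2 = pY t - 1 := by unfold Nx at b; omega
    rcases a' with a' | a' <;> rcases b' with b' | b' <;> simp only [a', b', true_or, or_true]
  · rintro ⟨t, ⟨ht, h, e⟩, rfl⟩
    refine ⟨?_, t, ⟨ht, h⟩, rfl⟩
    have key : ∀ i j, Nx (K (P t).re) i → Nx (K (P t).im) j →
        lab i j = lab (K x.re / 2) (K x.im / 2) →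
        P t ∈ closure (connectedComponentIn (R occ)ᶜ x) := fun i j a b c => by
      have a' : Nx (K x.re) (K x.re / 2) := Or.inl rfl
      have b' : Nx (K x.im) (K x.im / 2) := Or.inl rfl
      rw [cc_eq hx a' b' (c_free _ a'.lt _ b'.lt).1, face a' b', ← c, ← face a b]
      exact closure_mono (Sq_Cp a.lt b.lt (c_free _ a.lt _ b.lt).1) (Sq_clos a b)
    have k := P_K ht h
    rcases e with e | e | e | e <;> refine key _ _ ?_ ?_ e <;> unfold Nx <;> omega

theorem sub8 : {F : Set ℂ | (∃ x, x ∉ R occ ∧ F = connectedComponentIn (R occ)ᶜ x) ∧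
    (closure F ∩ P '' {t | t < 100 ∧ t / 10 ≠ t % 10}).ncard = 3} ⊆
      (fun k => Cp occ (rX k) (rY k)) '' ↑(Finset.range 8) := by
  rintro F ⟨⟨x, hx, rfl⟩, h⟩
  have a : Nx (K x.re) (K x.re / 2) := Or.inl rfl
  have b : Nx (K x.im) (K x.im / 2) := Or.inl rfl
  rw [clos hx, InjOn.ncard_image, ncard_coe_finset] at h
  · exact ⟨_, by simpa using c_cnt _ (c_free _ a.lt _ b.lt).2 h,
      ((cc_eq hx a b (c_free _ a.lt _ b.lt).1).trans (face a b)).symm⟩
  · intro t ht u hu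
    simp only [Finset.coe_filter, Finset.mem_range, mem_ofPred_eq] at ht hu
    exact P_inj ht.1 ht.2.1 hu.1 hu.2.1

theorem count : Set.ncard {F : Set ℂ | (∃ x, x ∉ R occ ∧ F = connectedComponentIn (R occ)ᶜ x) ∧
    (closure F ∩ P '' {t | t < 100 ∧ t / 10 ≠ t % 10}).ncard = 3} ≤ 8 :=
  (ncard_le_ncard sub8 (toFinite _)).trans ((ncard_image_le (toFinite _)).trans (by simp))

theorem ecount : Set.encard {F : Set ℂ | (∃ x, x ∉ R occ ∧ F = connectedComponentIn (R occ)ᶜ x) ∧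
    (closure F ∩ P '' {t | t < 100 ∧ t / 10 ≠ t % 10}).ncard = 3} ≤ 8 :=
  (encard_le_encard sub8).trans ((encard_image_le _ _).trans
    (by rw [encard_coe_eq_coe_finsetCard, Finset.card_range]; rfl))

theorem curves : ∃ γ : Fin 10 → Circle → ℂ, (∀ i, Continuous (γ i) ∧ Function.Injective (γ i)) ∧
    ∀ i, range (γ i) = R (mem i) := by
  choose γ h1 h2 using fun j : Fin 10 => exists_curve _ (c_end j j.2).1 _ _ (c_end j j.2).2
    (c_box j j.2) (c_step j j.2) _ _ (c_in j j.2) (c_out j j.2)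
  exact ⟨γ, h1, h2⟩

theorem union : ⋃ i : Fin 10, R (mem i) = R occ := by
  ext z
  simp only [mem_iUnion, R, mem_ofPred_eq]
  exact ⟨fun ⟨i, h⟩ => h.imp (·.trans_lt i.2) (·.trans_lt i.2),
    fun h => h.elim (fun h => ⟨⟨_, h⟩, Or.inl rfl⟩) fun h => ⟨⟨_, h⟩, Or.inr rfl⟩⟩

theorem points : {p : ℂ | ∃ i j : Fin 10, i ≠ j ∧ p ∈ R (mem i) ∧ p ∈ R (mem j)} =
    P '' {t | t < 100 ∧ t / 10 ≠ t % 10} := by
  ext z
  constructor
  · rintro ⟨i, j, h, hz⟩
    have h' : (i : ℕ) ≠ j := Fin.val_ne_of_ne h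
    have a := i.2
    have b := j.2
    rcases (two a b h').subset hz with e | e <;> exact ⟨_, ⟨by omega, by omega⟩, e.symm⟩
  · rintro ⟨t, ⟨ht, h⟩, rfl⟩
    exact ⟨⟨t / 10, by omega⟩, ⟨t % 10, by omega⟩, Fin.ne_of_val_ne h, P_mem ht h⟩

theorem cross {i j : ℕ} (hi : i < 10) (hj : j < 10) (h : i ≠ j) :
    (R (mem i) ∩ R (mem j)).ncard = 2 ∧ ∃ x ∈ R (mem i) \ R (mem j), ∃ y ∈ R (mem i) \ R (mem j),
      y ∉ connectedComponentIn (R (mem j))ᶜ x := by
  have b := fun q hq => (c_wb i hi j hj q hq).resolve_left h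
  have m := fun q (hq : q < 2) => (c_wm i hi j hj q hq).resolve_left h
  have w : ∀ q < 2, pt (wt i j (2 * q)) (wt i j (2 * q + 1)) ∈ R (mem i) \ R (mem j) :=
    fun q hq => ⟨(pt_mem (b _ (by omega)) (b _ (by omega))).2 (m q hq).1,
      mt (pt_mem (b _ (by omega)) (b _ (by omega))).1 (m q hq).2⟩
  refine ⟨?_, _, w 0 two_pos, _, w 1 one_lt_two, fun hy => ?_⟩
  · rw [two hi hj h]
    exact ncard_pair fun e => by
      have := P_inj (by omega) (by omega) (by omega) (by omega) e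
      omega
  · have e := (c_side j hj).eq hy
    have k0 := pt_K (b 0 (by omega)) (b 1 (by omega))
    have k1 := pt_K (b 2 (by omega)) (b 3 (by omega))
    rw [k0.1, k0.2, k1.1, k1.2] at e
    exact (c_ws i hi j hj).resolve_left h e

theorem triple {i j k : ℕ} (a : i ≠ j) (b : j ≠ k) (c : i ≠ k) :
    R (mem i) ∩ R (mem j) ∩ R (mem k) = ∅ := by
  refine eq_empty_of_forall_notMem fun z ⟨⟨u, v⟩, w⟩ => ?_
  simp only [R, mem_ofPred_eq, mem] at u v w
  omega

end Pool.Agent.MP_920d98_co.Cx
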